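import Pool.Agent.H75.TT.Final

/-!
Stratification does not descend along conservative geometric functors.
-/

open CategoryTheory Pool.Agent.H75.TT

namespace Pool.Agent.Results.MP_ca4e36_al.StratDescentFails

/-- There are rigidly-compactly generated tt-categories `T` and `S` with weakly noetherian
spectra and a conservative geometric functor `T ⥤ S` such that `S` is stratified and `T` is not
stratified. Moreover the Balmer-Favi idempotents of `T` exist and minimality fails for them. -/
theorem result : ∃ (T S : BigTT.{0}) (F : GeomFunctor T S), F.Conservative ∧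
    WeaklyNoetherian T.C ∧ WeaklyNoetherian S.C ∧ Stratified S.C ∧ ¬ Stratified T.C ∧
    (∃ g : Spc T.C → T.C, ∀ P, IsBalmerFavi P (g P)) ∧
    ∀ (P : Spc T.C) (g : T.C), IsBalmerFavi P g → ¬ IsMinimalLoc (LocId g) := final

end Pool.Agent.Results.MP_ca4e36_al.StratDescentFails
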